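import Pool.Agent.Helper36.RS.T2

set_option autoImplicit false

/-!
# Random Cayley graphs of `Alt(n)` with `η (log n) ^ 2` generators are expanders

For every `η > 0` there is `ε > 0` such that, as soon as `m(n) ≥ η (log n) ^ 2` for all large `n`,
`m(n)` independent uniform elements of `Alt(n)` are `ε`-expanding with probability tending to one.
-/

namespace Pool.Agent.Results.MP_838239_al.LogSquaredGenerators

open Finset Filter Topology

/-- The operator `Δ^S` of `S = {x_1^{±1}, ..., x_m^{±1}}` for the action by left translation,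
`(s • f) g = f (s⁻¹ g)`. -/
def Delta {n m : ℕ} (x : Fin m → alternatingGroup (Fin n)) (f : alternatingGroup (Fin n) → ℂ) :
    alternatingGroup (Fin n) → ℂ :=
  fun g => ∑ i, (f ((x i)⁻¹ * g) + f (x i * g))

/-- `ε`-expansion: every eigenvalue of `Δ^S` on the functions of sum zero is at most `2m - ε`
(the operator is self-adjoint, so its eigenvalues are real). -/
def Expanding (n m : ℕ) (ε : ℝ) (x : Fin m → alternatingGroup (Fin n)) : Prop :=
  ∀ f : alternatingGroup (Fin n) → ℂ, ∑ g, f g = 0 → f ≠ 0 →
    ∀ μ : ℝ, Delta x f = (μ : ℂ) • f → μ ≤ 2 * m - ε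

/-- For every `η > 0` there is `ε > 0` such that, for every sequence `m(n) ≥ η (log n) ^ 2`, the
probability that `m(n)` independent uniform elements of `Alt(n)` are `ε`-expanding tends to
one. -/
theorem result : ∀ η : ℝ, 0 < η → ∃ ε : ℝ, 0 < ε ∧ ∀ m : ℕ → ℕ,
    (∀ᶠ n : ℕ in atTop, η * Real.log n ^ 2 ≤ m n) →
      Tendsto (fun n : ℕ =>
        (Nat.card {x : Fin (m n) → alternatingGroup (Fin n) // Expanding n (m n) ε x} : ℝ) /
          (Nat.card (alternatingGroup (Fin n)) : ℝ) ^ (m n)) atTop (𝓝 1) := by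
  intro η hη
  obtain ⟨ε, hε, h⟩ := RS.t2_main hη
  refine ⟨ε, hε, fun m hm => ?_⟩
  refine h m hm (fun n x => Expanding n (m n) ε x) ?_
  intro n x hx f h0 hne μ hμ
  refine hx f h0 hne μ fun g => ?_
  have h1 := congrFun hμ g
  simpa [Delta] using h1

end Pool.Agent.Results.MP_838239_al.LogSquaredGenerators
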